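import Mathlib
import Pool.Agent.Helper889.Fg.Fin

set_option autoImplicit false

namespace Pool.Agent.Results.MP_1d2f05_al.OrbitsAndGerms

/-- The Cantor space `{0,1}^ℕ`. -/
def Cantor : Type := ℕ → Bool

instance : TopologicalSpace Cantor := inferInstanceAs (TopologicalSpace (ℕ → Bool))

/-- The group of homeomorphisms of the Cantor space. -/
def Homeo : Type := Cantor ≃ₜ Cantor

instance : Group Homeo := inferInstanceAs (Group (Cantor ≃ₜ Cantor))

/-- The point `g x`. -/
def ap (g : Homeo) : Cantor → Cantor := (show Cantor ≃ₜ Cantor from g).toFun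

/-- `G` acts minimally: every orbit is dense. -/
def Minimal (G : Subgroup Homeo) : Prop := ∀ x : Cantor, Dense {y : Cantor | ∃ g ∈ G, ap g x = y}

/-- `G = [[G]]`: every homeomorphism which is locally given by elements of `G` is in `G`. -/
def EqualsFull (G : Subgroup Homeo) : Prop :=
  ∀ h : Homeo, (∀ x : Cantor, ∃ V ∈ nhds x, ∃ g ∈ G, ∀ y ∈ V, ap h y = ap g y) → h ∈ G

/-- `H` is the restriction `G_U`: the elements of `G` fixing every point outside `U`. -/
def IsRestr (G : Subgroup Homeo) (U : Set Cantor) (H : Subgroup Homeo) : Prop :=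
  ∀ g : Homeo, g ∈ H ↔ (g ∈ G ∧ ∀ x ∉ U, ap g x = x)

/-- Amenability of a discrete group: a left invariant finitely additive probability measure. -/
def Amenable (M : Type) [Group M] : Prop :=
  ∃ μ : Set M → ℝ, (∀ A, 0 ≤ μ A) ∧ μ Set.univ = 1 ∧
    (∀ A B : Set M, Disjoint A B → μ (A ∪ B) = μ A + μ B) ∧
    ∀ (g : M) (A : Set M), μ ((fun x => g * x) ⁻¹' A) = μ A

/-- Amenability of the action of `G` on the orbit of `x`: a `G`-invariant finitely additive
probability measure on all subsets of the space which gives mass one to the orbit of `x`. -/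
def OrbitAmenable (G : Subgroup Homeo) (x : Cantor) : Prop :=
  ∃ ν : Set Cantor → ℝ, (∀ A, 0 ≤ ν A) ∧ ν Set.univ = 1 ∧
    (∀ A B : Set Cantor, Disjoint A B → ν (A ∪ B) = ν A + ν B) ∧
    (∀ g ∈ G, ∀ A : Set Cantor, ν (ap g '' A) = ν A) ∧ ν {y : Cantor | ∃ g ∈ G, ap g x = y} = 1

/-- Amenability of the group of germs of `G` at `x`: every group `Γ` which is the quotient `π` of
the stabiliser `S` of `x` in `G` by the subgroup of elements that are the identity near `x` is
amenable. -/
def GermsAmenable (G : Subgroup Homeo) (x : Cantor) : Prop :=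
  ∀ S : Subgroup Homeo, (∀ g, g ∈ S ↔ (g ∈ G ∧ ap g x = x)) →
    ∀ (Γ : Type) [Group Γ] (π : S →* Γ), Function.Surjective π →
      (∀ s : S, π s = 1 ↔ ∀ᶠ y in nhds x, ap s.1 y = y) → Amenable Γ

/-- Let `G` be a group of homeomorphisms of the Cantor space which acts minimally and equals its
topological full group. If the restriction `H = G_U` is amenable for some nonempty clopen `U`, then
for every point `x` the action of `G` on the orbit of `x` is amenable, and the group of germs of `G`
at `x` is amenable. -/
theorem result (G H : Subgroup Homeo) (U : Set Cantor) (hmin : Minimal G) (hfull : EqualsFull G)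
    (hU : IsClopen U) (hne : U.Nonempty) (hH : IsRestr G U H) (hA : Amenable H) (x : Cantor) :
    OrbitAmenable G x ∧ GermsAmenable G x :=
  ⟨Pool.Agent.Helper889.Fg.fin_orbit G hmin hfull U hU hne H hH hA x,
    fun S hS Γ _ π hπ hker =>
      Pool.Agent.Helper889.Fg.fin_germ G hmin hfull U hU hne H hH hA x S hS Γ π hπ hker⟩

end Pool.Agent.Results.MP_1d2f05_al.OrbitsAndGerms
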